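import Pool.Agent.W745.RW.Stm

set_option autoImplicit false

/-!
Project RW, part G2: the gradient bound on compact sets.
-/

namespace Pool.Agent.W578.RW.G2

open MeasureTheory Filter Topology Complex Set Metric
open scoped ContDiff ENNReal
open Pool.Agent.W745.RW

theorem swapL (Z : Set ℂ) (r : ℝ) (g : ℂ → ℝ≥0∞) (hg : Measurable g) :
    ∫⁻ z in Z, ∫⁻ x in ball z r, g x = ∫⁻ x, g x * volume (ball x r ∩ Z) := by
  have h1 : ∀ z : ℂ, ∫⁻ x in ball z r, g x = ∫⁻ x, (ball z r).indicator g x := fun z => by
    rw [lintegral_indicator measurableSet_ball]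
  simp_rw [h1]
  have hmeas : Measurable (Function.uncurry fun z x : ℂ => (ball z r).indicator g x) := by
    have h2 : (Function.uncurry fun z x : ℂ => (ball z r).indicator g x) =
        {p : ℂ × ℂ | dist p.2 p.1 < r}.indicator (fun p => g p.2) := by
      funext p
      obtain ⟨z, x⟩ := p
      simp only [Function.uncurry, Set.indicator, mem_ball, mem_setOf_eq]
    rw [h2]
    refine Measurable.indicator (hg.comp measurable_snd) ?_
    exact (isOpen_lt (continuous_snd.dist continuous_fst) continuous_const).measurableSet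
  rw [lintegral_lintegral_swap hmeas.aemeasurable]
  refine lintegral_congr fun x => ?_
  have h3 : ∀ z : ℂ, (ball z r).indicator g x = (ball x r).indicator (fun _ => g x) z := by
    intro z
    simp only [Set.indicator, mem_ball, dist_comm x z]
  simp_rw [h3]
  rw [lintegral_indicator_const measurableSet_ball, Measure.restrict_apply measurableSet_ball]

theorem vol3 (x y : ℂ) (h : ℝ) (hh : 0 < h) :
    volume (ball x (3 * h)) = 9 * volume (ball y h) := by
  rw [Complex.volume_ball, Complex.volume_ball, ENNReal.ofReal_mul (by norm_num), mul_pow,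
    mul_assoc]
  congr 1
  norm_num

theorem main (h1 : SG1) : SG2 := by
  obtain ⟨C, hC⟩ := h1
  refine ⟨9 * max C 0, ?_⟩
  intro U K K' hU hK hK' hKU h u hs hth
  have hpos := hs.hpos
  set D : ℝ := max C 0 with hD
  have hD0 : 0 ≤ D := le_max_right _ _
  set G : ℂ → ℝ := fun z => (h ^ 2 * (dx u z ^ 2 + dy u z ^ 2)) ^ 2 with hG
  have hfd : ContinuousOn (fderiv ℝ u) U :=
    hs.smooth.continuousOn_fderiv_of_isOpen hU (by norm_num)
  have hdx : ContinuousOn (dx u) U := hfd.clm_apply continuousOn_const
  have hdy : ContinuousOn (dy u) U := hfd.clm_apply continuousOn_const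
  have hGc : ContinuousOn G U :=
    (continuousOn_const.mul ((hdx.pow 2).add (hdy.pow 2))).pow 2
  have huc : ContinuousOn (fun z => u z ^ 4) U := hs.smooth.continuousOn.pow 4
  have hG0 : ∀ z, 0 ≤ G z := fun z => by positivity
  have hu0 : ∀ z, 0 ≤ u z ^ 4 := fun z => by positivity
  have hKK' : K ⊆ K' := (self_subset_cthickening K).trans hth
  have hGi : IntegrableOn G K' := (hGc.mono hKU).integrableOn_compact hK'
  have hui : IntegrableOn (fun z => u z ^ 4) K' := (huc.mono hKU).integrableOn_compact hK'
  set Z : Set ℂ := cthickening h K with hZ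
  have hball : ∀ z ∈ Z, ball z (4 * h) ⊆ K' := by
    intro z hz w hw
    refine hth ?_
    have e1 : ball z (4 * h) ⊆ thickening (4 * h) Z := ball_subset_thickening hz _
    have e2 : thickening (4 * h) (cthickening h K) ⊆ thickening (4 * h + h) K :=
      thickening_cthickening_subset _ hpos.le _
    have e3 := e2 (e1 hw)
    have e4 : 4 * h + h = 5 * h := by ring
    rw [e4] at e3
    exact thickening_subset_cthickening _ _ e3
  -- the local bound with lintegrals
  have hloc : ∀ z ∈ Z, ∫⁻ x in ball z h, ENNReal.ofReal (G x) ≤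
      ENNReal.ofReal D * ∫⁻ x in ball z (3 * h), ENNReal.ofReal (u x ^ 4) := by
    intro z hz
    have hb := hball z hz
    have hb1 : ball z h ⊆ K' := (ball_subset_ball (by linarith)).trans hb
    have hb3 : ball z (3 * h) ⊆ K' := (ball_subset_ball (by linarith)).trans hb
    have hs' : Sol (ball z (4 * h)) h u :=
      ⟨hpos, hs.smooth.mono (hb.trans hKU), fun w hw => hs.eq w (hKU (hb hw))⟩
    have h2 := hC h u z hs'
    rw [← ofReal_integral_eq_lintegral_ofReal (hGi.mono_set hb1)
      (Eventually.of_forall hG0),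
      ← ofReal_integral_eq_lintegral_ofReal (hui.mono_set hb3) (Eventually.of_forall hu0),
      ← ENNReal.ofReal_mul hD0]
    refine ENNReal.ofReal_le_ofReal (h2.trans ?_)
    exact mul_le_mul_of_nonneg_right (le_max_left _ _) (integral_nonneg hu0)
  -- measurable cut-offs
  set g : ℂ → ℝ≥0∞ := K.indicator fun x => ENNReal.ofReal (G x) with hg
  set v : ℂ → ℝ≥0∞ := K'.indicator fun x => ENNReal.ofReal (u x ^ 4) with hv
  have hgm : Measurable g := by
    classical
    have := ContinuousOn.measurable_piecewise (f := fun x => ENNReal.ofReal (G x))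
      (g := fun _ => 0) (s := K)
      (ENNReal.continuous_ofReal.comp_continuousOn (hGc.mono (hKK'.trans hKU)))
      continuousOn_const hK.measurableSet
    have h3 : g = K.piecewise (fun x => ENNReal.ofReal (G x)) (fun _ => 0) := by
      rw [hg]; exact (Set.piecewise_eq_indicator).symm
    rw [h3]; exact this
  have hvm : Measurable v := by
    classical
    have := ContinuousOn.measurable_piecewise (f := fun x => ENNReal.ofReal (u x ^ 4))
      (g := fun _ => 0) (s := K')
      (ENNReal.continuous_ofReal.comp_continuousOn (huc.mono hKU))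
      continuousOn_const hK'.measurableSet
    have h3 : v = K'.piecewise (fun x => ENNReal.ofReal (u x ^ 4)) (fun _ => 0) := by
      rw [hv]; exact (Set.piecewise_eq_indicator).symm
    rw [h3]; exact this
  have hmono : ∫⁻ z in Z, ∫⁻ x in ball z h, g x ≤
      ∫⁻ z in Z, ENNReal.ofReal D * ∫⁻ x in ball z (3 * h), v x := by
    refine setLIntegral_mono' isClosed_cthickening.measurableSet fun z hz => ?_
    calc ∫⁻ x in ball z h, g x ≤ ∫⁻ x in ball z h, ENNReal.ofReal (G x) := by
          refine lintegral_mono fun x => ?_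
          exact Set.indicator_le_self _ _ x
      _ ≤ ENNReal.ofReal D * ∫⁻ x in ball z (3 * h), ENNReal.ofReal (u x ^ 4) := hloc z hz
      _ = ENNReal.ofReal D * ∫⁻ x in ball z (3 * h), v x := by
          congr 1
          refine setLIntegral_congr_fun measurableSet_ball fun x hx => ?_
          have : x ∈ K' := hball z hz (ball_subset_ball (by linarith) hx)
          simp only [hv, Set.indicator_of_mem this]
  rw [lintegral_const_mul' _ _ ENNReal.ofReal_ne_top, swapL Z h g hgm, swapL Z (3 * h) v hvm]
    at hmono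
  set V : ℝ≥0∞ := volume (ball (0:ℂ) h) with hV
  have hVx : ∀ x : ℂ, volume (ball x h) = V := fun x => by
    rw [hV, Complex.volume_ball, Complex.volume_ball]
  have hV0 : V ≠ 0 := (measure_ball_pos volume _ hpos).ne'
  have hVt : V ≠ ⊤ := measure_ball_lt_top.ne
  have hL : ∫⁻ x, g x * volume (ball x h ∩ Z) = (∫⁻ x in K, ENNReal.ofReal (G x)) * V := by
    rw [← lintegral_indicator hK.measurableSet, ← lintegral_mul_const' _ _ hVt]
    refine lintegral_congr fun x => ?_
    by_cases hx : x ∈ K
    · have h4 : ball x h ∩ Z = ball x h := by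
        refine Set.inter_eq_left.2 ?_
        exact (ball_subset_thickening hx h).trans (thickening_subset_cthickening _ _)
      rw [h4, hVx]
    · simp only [hg, Set.indicator_of_notMem hx, zero_mul]
  have hR : ∫⁻ x, v x * volume (ball x (3 * h) ∩ Z) ≤
      (∫⁻ x in K', ENNReal.ofReal (u x ^ 4)) * (9 * V) := by
    rw [← lintegral_indicator hK'.measurableSet,
      ← lintegral_mul_const' _ _ (ENNReal.mul_ne_top (by norm_num) hVt)]
    refine lintegral_mono fun x => ?_
    refine mul_le_mul_right ?_ _
    refine (measure_mono Set.inter_subset_left).trans ?_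
    rw [vol3 x 0 h hpos]
  rw [hL] at hmono
  have h5 := hmono.trans (mul_le_mul_right hR (ENNReal.ofReal D))
  have h6 : ENNReal.ofReal D * ((∫⁻ x in K', ENNReal.ofReal (u x ^ 4)) * (9 * V)) =
      (9 * ENNReal.ofReal D * ∫⁻ x in K', ENNReal.ofReal (u x ^ 4)) * V := by ring
  rw [h6] at h5
  have h7 := (ENNReal.mul_le_mul_iff_left hV0 hVt).1 h5
  rw [← ofReal_integral_eq_lintegral_ofReal (hGi.mono_set hKK') (Eventually.of_forall hG0),
    ← ofReal_integral_eq_lintegral_ofReal hui (Eventually.of_forall hu0)] at h7
  have h8 : (9 : ℝ≥0∞) * ENNReal.ofReal D * ENNReal.ofReal (∫ z in K', u z ^ 4) =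
      ENNReal.ofReal (9 * D * ∫ z in K', u z ^ 4) := by
    rw [ENNReal.ofReal_mul (by positivity), ENNReal.ofReal_mul (by norm_num)]
    norm_num
  rw [h8] at h7
  exact (ENNReal.ofReal_le_ofReal_iff
    (mul_nonneg (by positivity) (integral_nonneg hu0))).1 h7

end Pool.Agent.W578.RW.G2
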